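import Mathlib

/-!
# Averaging schemes on abelian groups, van der Corput and Weyl's theorem

Helper file for MP_379c13_an (disproof of `d_min = d_min^W`).
-/

set_option autoImplicit false
open Filter Topology

namespace Pool.Agent.MP379

/-- An averaging scheme on `G`: for each `H` a finite set of indices and a map to `G`. -/
structure Scheme (G : Type) where
  ι : Type
  s : ℕ → Finset ι
  g : ι → G

variable {G : Type}

/-- The average of `u` over the `H`-th stage of the scheme. -/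
noncomputable def Scheme.avg (S : Scheme G) (H : ℕ) (u : G → ℂ) : ℂ :=
  ((S.s H).card : ℂ)⁻¹ * ∑ i ∈ S.s H, u (S.g i)

/-- Asymptotic shift invariance, with a rate `C / H`, uniform in `u`. -/
structure Scheme.Reiter [AddCommGroup G] (S : Scheme G) : Prop where
  nonempty : ∀ H, 1 ≤ H → (S.s H).Nonempty
  shift : ∀ r : G, ∃ C : ℝ, ∀ H, 1 ≤ H → ∀ u : G → ℂ, (∀ g, ‖u g‖ ≤ 1) →
    ‖S.avg H (fun g => u (g + r)) - S.avg H u‖ ≤ C / H

lemma Scheme.avg_add (S : Scheme G) (H : ℕ) (u v : G → ℂ) :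
    S.avg H (fun g => u g + v g) = S.avg H u + S.avg H v := by
  simp only [Scheme.avg, Finset.sum_add_distrib, mul_add]

lemma Scheme.avg_sub (S : Scheme G) (H : ℕ) (u v : G → ℂ) :
    S.avg H (fun g => u g - v g) = S.avg H u - S.avg H v := by
  simp only [Scheme.avg, Finset.sum_sub_distrib, mul_sub]

lemma Scheme.avg_const_mul (S : Scheme G) (H : ℕ) (c : ℂ) (u : G → ℂ) :
    S.avg H (fun g => c * u g) = c * S.avg H u := by
  simp only [Scheme.avg, ← Finset.mul_sum]; ring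

lemma Scheme.avg_sum (S : Scheme G) (H : ℕ) {α : Type*} (t : Finset α) (u : α → G → ℂ) :
    S.avg H (fun g => ∑ a ∈ t, u a g) = ∑ a ∈ t, S.avg H (u a) := by
  simp only [Scheme.avg]
  rw [Finset.sum_comm, Finset.mul_sum]

lemma Scheme.avg_conj (S : Scheme G) (H : ℕ) (u : G → ℂ) :
    S.avg H (fun g => (starRingEnd ℂ) (u g)) = (starRingEnd ℂ) (S.avg H u) := by
  simp [Scheme.avg, map_mul, map_sum]

lemma Scheme.avg_const [AddCommGroup G] {S : Scheme G} (hS : S.Reiter) {H : ℕ} (hH : 1 ≤ H)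
    (c : ℂ) : S.avg H (fun _ => c) = c := by
  have h := hS.nonempty H hH
  have : ((S.s H).card : ℂ) ≠ 0 := by
    exact_mod_cast (Finset.card_pos.mpr h).ne'
  simp [Scheme.avg, this]

lemma Scheme.norm_avg_le [AddCommGroup G] (S : Scheme G) (H : ℕ)
    (u : G → ℂ) {C : ℝ} (hC : 0 ≤ C) (hu : ∀ g, ‖u g‖ ≤ C) : ‖S.avg H u‖ ≤ C := by
  unfold Scheme.avg
  rw [norm_mul, norm_inv, Complex.norm_natCast]
  rcases Nat.eq_zero_or_pos (S.s H).card with h0 | hpos
  · simp [h0, hC]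
  have hpos' : (0:ℝ) < (S.s H).card := by exact_mod_cast hpos
  rw [inv_mul_le_iff₀ hpos']
  calc ‖∑ i ∈ S.s H, u (S.g i)‖ ≤ ∑ i ∈ S.s H, ‖u (S.g i)‖ := norm_sum_le _ _
    _ ≤ ∑ _i ∈ S.s H, C := Finset.sum_le_sum fun i _ => hu _
    _ = (S.s H).card * C := by simp

/-- Cauchy–Schwarz for averages. -/
lemma Scheme.norm_sq_avg_le (S : Scheme G) (H : ℕ) (u : G → ℂ) :
    ‖S.avg H u‖ ^ 2 ≤ (S.avg H (fun g => u g * (starRingEnd ℂ) (u g))).re := by
  unfold Scheme.avg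
  rcases Nat.eq_zero_or_pos (S.s H).card with h0 | hpos
  · simp [h0]
  have hpos' : (0:ℝ) < (S.s H).card := by exact_mod_cast hpos
  have h1 : ‖∑ i ∈ S.s H, u (S.g i)‖ ≤ ∑ i ∈ S.s H, ‖u (S.g i)‖ := norm_sum_le _ _
  have h2 : (∑ i ∈ S.s H, ‖u (S.g i)‖) ^ 2 ≤ (S.s H).card * ∑ i ∈ S.s H, ‖u (S.g i)‖ ^ 2 :=
    sq_sum_le_card_mul_sum_sq
  have h3 : (((S.s H).card : ℂ)⁻¹ * ∑ i ∈ S.s H, u (S.g i) * (starRingEnd ℂ) (u (S.g i))).re
      = ((S.s H).card : ℝ)⁻¹ * ∑ i ∈ S.s H, ‖u (S.g i)‖ ^ 2 := by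
    have : (∑ i ∈ S.s H, u (S.g i) * (starRingEnd ℂ) (u (S.g i)))
        = ((∑ i ∈ S.s H, ‖u (S.g i)‖ ^ 2 : ℝ) : ℂ) := by
      push_cast
      refine Finset.sum_congr rfl fun i _ => ?_
      rw [Complex.mul_conj, Complex.normSq_eq_norm_sq]; push_cast; rfl
    rw [this, ← Complex.ofReal_natCast, ← Complex.ofReal_inv, ← Complex.ofReal_mul,
      Complex.ofReal_re]
  rw [h3, norm_mul, norm_inv, Complex.norm_natCast, mul_pow, inv_pow]
  have h4 : ‖∑ i ∈ S.s H, u (S.g i)‖ ^ 2 ≤ (S.s H).card * ∑ i ∈ S.s H, ‖u (S.g i)‖ ^ 2 :=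
    le_trans (pow_le_pow_left₀ (norm_nonneg _) h1 2) h2
  calc (((S.s H).card : ℝ) ^ 2)⁻¹ * ‖∑ i ∈ S.s H, u (S.g i)‖ ^ 2
      ≤ (((S.s H).card : ℝ) ^ 2)⁻¹ * ((S.s H).card * ∑ i ∈ S.s H, ‖u (S.g i)‖ ^ 2) := by
        gcongr
    _ = ((S.s H).card : ℝ)⁻¹ * ∑ i ∈ S.s H, ‖u (S.g i)‖ ^ 2 := by
        field_simp

lemma Scheme.Reiter.shift_tendsto [AddCommGroup G] {S : Scheme G} (hS : S.Reiter) (r : G)
    (u : G → ℂ) (hu : ∀ g, ‖u g‖ ≤ 1) :
    Tendsto (fun H => S.avg H (fun g => u (g + r)) - S.avg H u) atTop (𝓝 0) := by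
  obtain ⟨C, hC⟩ := hS.shift r
  rw [tendsto_zero_iff_norm_tendsto_zero]
  refine squeeze_zero' (Eventually.of_forall fun H => norm_nonneg _)
    (eventually_atTop.mpr ⟨1, fun H hH => hC H hH u hu⟩) ?_
  exact tendsto_const_div_atTop_nhds_zero_nat C

/-- The averaged function used in van der Corput's trick. -/
noncomputable def vdcW [AddCommGroup G] (K : ℕ) (v : G) (u : G → ℂ) (g : G) : ℂ :=
  (K:ℂ)⁻¹ * ∑ t ∈ Finset.range K, u (g + t • v)

lemma vdcW_diff [AddCommGroup G] {S : Scheme G} (hS : S.Reiter) (v : G) (u : G → ℂ)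
    (hu : ∀ g, ‖u g‖ ≤ 1) (K : ℕ) (hK : 0 < K) :
    Tendsto (fun H => S.avg H (vdcW K v u) - S.avg H u) atTop (𝓝 0) := by
  have hK0 : (K:ℂ) ≠ 0 := by exact_mod_cast hK.ne'
  have h1 : ∀ H, S.avg H (vdcW K v u) - S.avg H u
      = (K:ℂ)⁻¹ * ∑ t ∈ Finset.range K, (S.avg H (fun g => u (g + t • v)) - S.avg H u) := by
    intro H
    unfold vdcW
    rw [Scheme.avg_const_mul, Scheme.avg_sum, Finset.sum_sub_distrib]
    simp only [Finset.sum_const, Finset.card_range, nsmul_eq_mul]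
    field_simp
  simp only [h1]
  have h2 : Tendsto (fun H => ∑ t ∈ Finset.range K,
      (S.avg H (fun g => u (g + t • v)) - S.avg H u)) atTop (𝓝 (∑ t ∈ Finset.range K, 0)) :=
    tendsto_finsetSum _ fun t _ => hS.shift_tendsto (t • v) u hu
  simpa using h2.const_mul ((K:ℂ)⁻¹)

lemma vdcW_sq [AddCommGroup G] (S : Scheme G) (v : G) (u : G → ℂ) (K H : ℕ) :
    S.avg H (fun g => vdcW K v u g * (starRingEnd ℂ) (vdcW K v u g))
        = (K:ℂ)⁻¹ ^ 2 * ∑ t ∈ Finset.range K, ∑ t' ∈ Finset.range K,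
          S.avg H (fun g => u (g + t • v) * (starRingEnd ℂ) (u (g + t' • v))) := by
  have : (fun g => vdcW K v u g * (starRingEnd ℂ) (vdcW K v u g)) = fun g => (K:ℂ)⁻¹ ^ 2 *
      ∑ t ∈ Finset.range K, ∑ t' ∈ Finset.range K,
        (u (g + t • v) * (starRingEnd ℂ) (u (g + t' • v))) := by
    funext g
    simp only [vdcW, map_mul, map_inv₀, map_natCast, map_sum]
    rw [← Finset.sum_mul_sum]
    ring
  rw [this, Scheme.avg_const_mul, Scheme.avg_sum]
  congr 1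
  refine Finset.sum_congr rfl fun t _ => ?_
  rw [Scheme.avg_sum]

lemma vdcW_offdiag [AddCommGroup G] {S : Scheme G} (v : G) (u : G → ℂ)
    (hcor' : ∀ t t' : ℕ, t ≠ t' →
      Tendsto (fun H => S.avg H (fun g => u (g + t • v) * (starRingEnd ℂ) (u (g + t' • v))))
        atTop (𝓝 0)) (K : ℕ) :
    Tendsto (fun H => S.avg H (fun g => vdcW K v u g * (starRingEnd ℂ) (vdcW K v u g))
      - (K:ℂ)⁻¹ ^ 2 * ∑ t ∈ Finset.range K,
        S.avg H (fun g => u (g + t • v) * (starRingEnd ℂ) (u (g + t • v)))) atTop (𝓝 0) := by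
  have h3 : Tendsto (fun H => ∑ t ∈ Finset.range K, ∑ t' ∈ (Finset.range K).erase t,
        S.avg H (fun g => u (g + t • v) * (starRingEnd ℂ) (u (g + t' • v)))) atTop
        (𝓝 (∑ t ∈ Finset.range K, ∑ t' ∈ (Finset.range K).erase t, 0)) := by
    refine tendsto_finsetSum _ fun t _ => tendsto_finsetSum _ fun t' ht' => ?_
    exact hcor' t t' (Finset.ne_of_mem_erase ht').symm
  have h4 := h3.const_mul ((K:ℂ)⁻¹ ^ 2)
  simp only [Finset.sum_const_zero, mul_zero] at h4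
  refine h4.congr fun H => ?_
  rw [vdcW_sq, ← mul_sub, ← Finset.sum_sub_distrib]
  congr 1
  refine Finset.sum_congr rfl fun t ht => ?_
  rw [← Finset.add_sum_erase _ _ ht, add_sub_cancel_left]

lemma vdcW_diag [AddCommGroup G] (S : Scheme G) (v : G) (u : G → ℂ)
    (hu : ∀ g, ‖u g‖ ≤ 1) (K H : ℕ) :
    ‖(K:ℂ)⁻¹ ^ 2 * ∑ t ∈ Finset.range K,
      S.avg H (fun g => u (g + t • v) * (starRingEnd ℂ) (u (g + t • v)))‖ ≤ 1 / K := by
  rw [norm_mul, norm_pow, norm_inv, Complex.norm_natCast]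
  have : ‖∑ t ∈ Finset.range K,
      S.avg H (fun g => u (g + t • v) * (starRingEnd ℂ) (u (g + t • v)))‖ ≤ K := by
    calc _ ≤ ∑ t ∈ Finset.range K,
        ‖S.avg H (fun g => u (g + t • v) * (starRingEnd ℂ) (u (g + t • v)))‖ :=
          norm_sum_le _ _
      _ ≤ ∑ _t ∈ Finset.range K, (1:ℝ) := by
          refine Finset.sum_le_sum fun t _ => ?_
          refine S.norm_avg_le H _ zero_le_one fun g => ?_
          rw [norm_mul, RCLike.norm_conj]
          exact mul_le_one₀ (hu _) (norm_nonneg _) (hu _)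
      _ = K := by simp
  rcases Nat.eq_zero_or_pos K with hK | hK
  · subst hK; simp
  have hKp : (0:ℝ) < K := by exact_mod_cast hK
  calc ((K:ℝ)⁻¹) ^ 2 * ‖∑ t ∈ Finset.range K,
      S.avg H (fun g => u (g + t • v) * (starRingEnd ℂ) (u (g + t • v)))‖
      ≤ ((K:ℝ)⁻¹) ^ 2 * (K:ℝ) := by gcongr
    _ = 1 / (K:ℝ) := by field_simp

/-- van der Corput: if the correlations of `u` along multiples of `v` tend to zero in mean, so
does `u`. -/
theorem vdc [AddCommGroup G] {S : Scheme G} (hS : S.Reiter) (v : G) (u : G → ℂ)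
    (hu : ∀ g, ‖u g‖ ≤ 1)
    (hcor : ∀ t t' : ℕ, t' < t →
      Tendsto (fun H => S.avg H (fun g => u (g + t • v) * (starRingEnd ℂ) (u (g + t' • v))))
        atTop (𝓝 0)) :
    Tendsto (fun H => S.avg H u) atTop (𝓝 0) := by
  -- all off-diagonal correlations tend to zero
  have hcor' : ∀ t t' : ℕ, t ≠ t' →
      Tendsto (fun H => S.avg H (fun g => u (g + t • v) * (starRingEnd ℂ) (u (g + t' • v))))
        atTop (𝓝 0) := by
    intro t t' htt
    rcases lt_or_gt_of_ne htt with h | h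
    · have h1 := hcor t' t h
      have h2 : (fun H => S.avg H (fun g => u (g + t • v) * (starRingEnd ℂ) (u (g + t' • v))))
          = fun H => (starRingEnd ℂ)
            (S.avg H (fun g => u (g + t' • v) * (starRingEnd ℂ) (u (g + t • v)))) := by
        funext H
        rw [← Scheme.avg_conj]
        congr 1
        funext g
        rw [map_mul, Complex.conj_conj, mul_comm]
      rw [h2]
      have := (Complex.continuous_conj.tendsto (0:ℂ)).comp h1
      rw [map_zero] at this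
      exact this
    · exact hcor t t' h
  rw [Metric.tendsto_atTop]
  intro ε hε
  -- choose K
  obtain ⟨K, hK⟩ := exists_nat_gt (8 / ε ^ 2 + 1)
  have hε2 : 0 < ε ^ 2 := by positivity
  have h8 : 0 < 8 / ε ^ 2 := by positivity
  have hK1 : (1:ℝ) < K := by linarith
  have hKpos : (0:ℝ) < K := by linarith
  have hKnat : 0 < K := by exact_mod_cast hKpos
  have hKinv : 1 / (K:ℝ) < ε ^ 2 / 8 := by
    rw [div_lt_iff₀ hKpos]
    have : 8 / ε ^ 2 < K := by linarith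
    rw [div_lt_iff₀ hε2] at this
    linarith
  obtain ⟨N1, hN1⟩ := (Metric.tendsto_atTop.mp (vdcW_diff hS v u hu K hKnat)) (ε / 4)
    (by positivity)
  obtain ⟨N2, hN2⟩ := (Metric.tendsto_atTop.mp (vdcW_offdiag v u hcor' K)) (ε ^ 2 / 8)
    (by positivity)
  refine ⟨max N1 N2, fun H hH => ?_⟩
  have e1 := hN1 H (le_trans (le_max_left _ _) hH)
  have e2 := hN2 H (le_trans (le_max_right _ _) hH)
  rw [dist_zero_right] at e1 e2 ⊢
  have hd := vdcW_diag S v u hu K H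
  generalize hX : S.avg H (fun g => vdcW K v u g * (starRingEnd ℂ) (vdcW K v u g)) = X at e2
  generalize hY : (K:ℂ)⁻¹ ^ 2 * ∑ t ∈ Finset.range K,
      S.avg H (fun g => u (g + t • v) * (starRingEnd ℂ) (u (g + t • v))) = Y at e2 hd
  have e3 : ‖S.avg H (vdcW K v u)‖ ^ 2 < ε ^ 2 / 4 := by
    have hb := S.norm_sq_avg_le H (vdcW K v u)
    rw [hX] at hb
    have hre : X.re ≤ ‖X - Y‖ + ‖Y‖ := by
      refine le_trans (Complex.re_le_norm _) ?_
      refine le_trans (le_of_eq ?_) (norm_add_le _ _)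
      rw [sub_add_cancel]
    linarith
  have e4 : ‖S.avg H (vdcW K v u)‖ < ε / 2 := by
    by_contra hcon
    push Not at hcon
    have : (ε / 2) ^ 2 ≤ ‖S.avg H (vdcW K v u)‖ ^ 2 := pow_le_pow_left₀ (by positivity) hcon 2
    nlinarith
  calc ‖S.avg H u‖ = ‖S.avg H (vdcW K v u) - (S.avg H (vdcW K v u) - S.avg H u)‖ := by
        congr 1; ring
    _ ≤ ‖S.avg H (vdcW K v u)‖ + ‖S.avg H (vdcW K v u) - S.avg H u‖ := norm_sub_le _ _
    _ < ε := by linarith

end Pool.Agent.MP379
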