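import Pool.Agent.MP379.Reiter

/-!
# Weyl's theorem for maps into the circle group with a non-torsion iterated difference
-/

set_option autoImplicit false
open Filter Topology

namespace Pool.Agent.MP379

variable {G : Type} [AddCommGroup G]

/-- Iterated difference along a list of directions. -/
def Diff {E : Type} [AddCommGroup E] : List G → (G → E) → G → E
  | [], f => f
  | v :: L, f => Diff L (fun g => f (g + v) - f g)

lemma Diff_nil {E : Type} [AddCommGroup E] (f : G → E) : Diff [] f = f := rfl
lemma Diff_cons {E : Type} [AddCommGroup E] (v : G) (L : List G) (f : G → E) :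
    Diff (v :: L) f = Diff L (fun g => f (g + v) - f g) := rfl

lemma Diff_add {E : Type} [AddCommGroup E] (L : List G) (f f' : G → E) :
    Diff L (fun g => f g + f' g) = fun g => Diff L f g + Diff L f' g := by
  induction L generalizing f f' with
  | nil => rfl
  | cons v L ih =>
    rw [Diff_cons, Diff_cons, Diff_cons, ← ih]
    congr 1; funext g; abel

lemma Diff_sub {E : Type} [AddCommGroup E] (L : List G) (f f' : G → E) :
    Diff L (fun g => f g - f' g) = fun g => Diff L f g - Diff L f' g := by
  induction L generalizing f f' with
  | nil => rfl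
  | cons v L ih =>
    rw [Diff_cons, Diff_cons, Diff_cons, ← ih]
    congr 1; funext g; abel

lemma Diff_zero {E : Type} [AddCommGroup E] (L : List G) :
    Diff L (fun _ => (0:E)) = fun _ => (0:E) := by
  induction L with
  | nil => rfl
  | cons v L ih => rw [Diff_cons]; simpa using ih

lemma Diff_sum {E : Type} [AddCommGroup E] {α : Type} (L : List G) (t : Finset α)
    (f : α → G → E) :
    Diff L (fun g => ∑ a ∈ t, f a g) = fun g => ∑ a ∈ t, Diff L (f a) g := by
  classical
  induction t using Finset.induction_on with
  | empty => simpa using Diff_zero L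
  | insert a t ha ih =>
    simp only [Finset.sum_insert ha]
    rw [Diff_add, ih]

lemma Diff_shift {E : Type} [AddCommGroup E] (L : List G) (f : G → E) (r : G) :
    Diff L (fun g => f (g + r)) = fun g => Diff L f (g + r) := by
  induction L generalizing f with
  | nil => rfl
  | cons v L ih =>
    rw [Diff_cons, Diff_cons]
    have := ih (fun g => f (g + v) - f g)
    rw [← this]
    congr 1; funext g
    simp only [add_right_comm g r v]

lemma Diff_comp {E F : Type} [AddCommGroup E] [AddCommGroup F] (φ : E →+ F) (L : List G)
    (f : G → E) : Diff L (fun g => φ (f g)) = fun g => φ (Diff L f g) := by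
  induction L generalizing f with
  | nil => rfl
  | cons v L ih =>
    rw [Diff_cons, Diff_cons, ← ih]
    congr 1; funext g; rw [map_sub]

/-- Swapping the first direction with the rest. -/
lemma Diff_cons' {E : Type} [AddCommGroup E] (v : G) (L : List G) (f : G → E) :
    Diff (v :: L) f = fun g => Diff L f (g + v) - Diff L f g := by
  rw [Diff_cons, Diff_sub, Diff_shift]

/-- If the difference along `v :: L` is the constant `c`, the difference along `L` of
`f (· + t v) - f (· + t' v)` is `(t - t') c`. -/
lemma Diff_multiple {E : Type} [AddCommGroup E] (v : G) (L : List G) (f : G → E) (c : E)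
    (h : ∀ g, Diff (v :: L) f g = c) (t : ℕ) (g : G) :
    Diff L f (g + t • v) - Diff L f g = t • c := by
  induction t with
  | zero => simp
  | succ t ih =>
    have h1 := h (g + t • v)
    rw [Diff_cons'] at h1
    have h1' : Diff L f (g + t • v + v) - Diff L f (g + t • v) = c := h1
    have : g + (t + 1) • v = g + t • v + v := by rw [succ_nsmul, ← add_assoc]
    rw [this, succ_nsmul, ← ih, ← h1']
    abel

/-- The standard character of the circle. -/
noncomputable def e (t : UnitAddCircle) : ℂ := (AddCircle.toCircle t : ℂ)

@[simp] lemma norm_e (t : UnitAddCircle) : ‖e t‖ = 1 := Circle.norm_coe _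

lemma e_add (s t : UnitAddCircle) : e (s + t) = e s * e t := by
  simp [e, AddCircle.toCircle_add]

@[simp] lemma e_zero : e 0 = 1 := by simp [e]

lemma e_neg (t : UnitAddCircle) : e (-t) = (starRingEnd ℂ) (e t) := by
  rw [e, AddCircle.toCircle_neg, Circle.coe_inv_eq_conj]; rfl

lemma e_sub (s t : UnitAddCircle) : e (s - t) = e s * (starRingEnd ℂ) (e t) := by
  rw [sub_eq_add_neg, e_add, e_neg]

lemma e_eq_one_iff (t : UnitAddCircle) : e t = 1 ↔ t = 0 := by
  constructor
  · intro h
    have h1 : AddCircle.toCircle t = 1 := by
      apply Circle.ext; simpa [e] using h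
    have : AddCircle.toCircle t = AddCircle.toCircle (0 : UnitAddCircle) := by
      rw [h1, AddCircle.toCircle_zero]
    exact AddCircle.injective_toCircle one_ne_zero this
  · rintro rfl; simp

lemma continuous_e : Continuous e := by
  unfold e
  exact continuous_subtype_val.comp AddCircle.continuous_toCircle

/-- **Weyl's theorem**, circle version: if some iterated difference of `f` is a constant of
infinite order, the means of `e ∘ f` along every Reiter scheme tend to zero. -/
theorem weyl_torus {S : Scheme G} (hS : S.Reiter) (L : List G) : ∀ (v : G)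
    (f : G → UnitAddCircle) (c : UnitAddCircle) (_ : ∀ n : ℕ, n ≠ 0 → n • c ≠ 0)
    (_ : ∀ g, Diff (v :: L) f g = c),
    Tendsto (fun H => S.avg H (fun g => e (f g))) atTop (𝓝 0) := by
  induction L with
  | nil =>
    intro v f c hc h
    have h1 : ∀ g, f (g + v) = f g + c := by
      intro g
      have := h g
      rw [Diff_cons, Diff_nil] at this
      rw [← this]; abel
    have h2 := hS.shift_tendsto v (fun g => e (f g)) (fun g => le_of_eq (norm_e _))
    have h3 : ∀ H, S.avg H (fun g => e (f (g + v))) - S.avg H (fun g => e (f g))
        = (e c - 1) * S.avg H (fun g => e (f g)) := by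
      intro H
      have : (fun g => e (f (g + v))) = fun g => e c * e (f g) := by
        funext g; rw [h1, e_add, mul_comm]
      rw [this, Scheme.avg_const_mul]; ring
    simp only [h3] at h2
    have hc1 : e c - 1 ≠ 0 := by
      rw [sub_ne_zero, Ne, e_eq_one_iff]
      simpa using hc 1 one_ne_zero
    have h4 := h2.const_mul (e c - 1)⁻¹
    simp only [mul_zero] at h4
    refine h4.congr fun H => ?_
    rw [← mul_assoc, inv_mul_cancel₀ hc1, one_mul]
  | cons w L ih =>
    intro v f c hc h
    refine vdc hS v _ (fun g => le_of_eq (norm_e _)) ?_
    intro t t' htt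
    obtain ⟨d, hd⟩ := Nat.exists_eq_add_of_lt htt
    set F : G → UnitAddCircle := fun g => f (g + t • v) - f (g + t' • v) with hF
    have h1 : ∀ g, Diff (w :: L) F g = (d + 1) • c := by
      intro g
      rw [hF, Diff_sub, Diff_shift (w :: L) f (t • v), Diff_shift (w :: L) f (t' • v)]
      have := Diff_multiple v (w :: L) f c h (d + 1) (g + t' • v)
      rw [← this]
      show Diff (w :: L) f (g + t • v) - Diff (w :: L) f (g + t' • v) = _
      have e1 : g + t • v = g + t' • v + (d + 1) • v := by
        rw [hd, add_assoc t' d 1, add_nsmul, add_assoc]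
      rw [e1]
    have h2 := ih w F ((d + 1) • c) ?_ h1
    · refine h2.congr fun H => ?_
      congr 1
      funext g
      rw [hF]
      exact e_sub _ _
    · intro n hn
      rw [← mul_nsmul]
      exact hc _ (Nat.mul_ne_zero (by omega) hn)

end Pool.Agent.MP379
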